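import Mathlib
import Pool.Agent.RelEq624.Defs
import Pool.Agent.RelEq624.Dynamics

set_option autoImplicit false

namespace Pool.Agent.Results.MP_b9e19b_mp.SpectralInstability18

open Pool.Agent.RelEq624

/-- **Spectral instability near equal masses for all `N ≥ 18`.**
First part: if `N ≥ 18` and the positive masses satisfy `m_j³ < 1.005 m_k³` for all `j, k`, then no
relative equilibrium with these masses is spectrally stable. Second part (Moeckel's question for
every `N ≥ 18`): the equal-mass vectors have a common neighbourhood `U` in the positive orthant such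
that for `m ∈ U` no relative equilibrium with masses `m` is spectrally stable. -/
theorem result :
    (∀ N : ℕ, 18 ≤ N → ∀ m : Fin N → ℝ, (∀ j, 0 < m j) →
      (∀ j k, m j ^ 3 < 201 / 200 * m k ^ 3) →
      ∀ (ω : ℝ) (q : Fin N → ℂ), IsRelEq m ω q → ¬ SpectrallyStable m ω q) ∧
    (∀ N : ℕ, 18 ≤ N → ∃ U : Set (Fin N → ℝ), IsOpen U ∧ (∀ c : ℝ, 0 < c → (fun _ => c) ∈ U) ∧
      (∀ m ∈ U, ∀ j, 0 < m j) ∧
      ∀ m ∈ U, ∀ (ω : ℝ) (q : Fin N → ℂ), IsRelEq m ω q → ¬ SpectrallyStable m ω q) := by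
  refine ⟨fun N hN m hm hr ω q h => main hN hm hr h, fun N hN => ?_⟩
  refine ⟨{m | (∀ j, 0 < m j) ∧ ∀ j k, m j ^ 3 < 201 / 200 * m k ^ 3}, ?_, ?_, ?_, ?_⟩
  · have e : {m : Fin N → ℝ | (∀ j, 0 < m j) ∧ ∀ j k, m j ^ 3 < 201 / 200 * m k ^ 3}
        = (⋂ j, {m : Fin N → ℝ | 0 < m j}) ∩ ⋂ j, ⋂ k, {m : Fin N → ℝ | m j ^ 3 < 201 / 200 * m k ^ 3} := by
      ext m; simp
    rw [e]
    refine IsOpen.inter (isOpen_iInter_of_finite fun j => ?_)
      (isOpen_iInter_of_finite fun j => isOpen_iInter_of_finite fun k => ?_)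
    · exact isOpen_lt continuous_const (continuous_apply j)
    · exact isOpen_lt (by fun_prop) (by fun_prop)
  · intro c hc
    refine ⟨fun _ => hc, fun _ _ => ?_⟩
    have : 0 < c ^ 3 := by positivity
    simp only
    linarith
  · exact fun m hm => hm.1
  · exact fun m hm ω q h => main hN hm.1 hm.2 h

end Pool.Agent.Results.MP_b9e19b_mp.SpectralInstability18
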